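import Pool.Agent.X144.Kon

set_option autoImplicit false

/-!
# The optimal cover is never unique when the Konig graph process first has a perfect matching

Full answer to Q1 of MP_f77465_pr (the statement is disproved, deterministically). The definitions
(`IsMatchingSet`, `IsCover`, `nu`, `tau`, `HasPM`, `Pair`, `Ordering`, `addEdge`, `proc`, `IsT`,
`Good`, `prGood`) are in `Pool/Agent/X144/Kon.lean`.
-/

namespace Pool.Agent.Results.MP_f77465_pr.NeverUnique

open Filter Topology Pool.Agent.X144.Kon

/-- For every even `n ≥ 2` and every ordering of the pairs of vertices, the Konig graph process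
reaches a perfect matching (`T < ∞`), and `G_T` has at least two distinct vertex covers of size
`τ(G_T)`. Hence the probability that `T = ∞` or `G_T` has exactly one vertex cover of size `τ(G_T)`
is `0` for every even `n ≥ 2`, and does not tend to `1`. -/
theorem result :
    (∀ n : ℕ, Even n → 2 ≤ n → ∀ σ : Ordering n,
      ∃ i ≤ Fintype.card (Pair n), IsT σ i ∧ ∃ C C' : Finset (Fin n), C ≠ C' ∧
        IsCover (proc σ i) C ∧ C.card = tau (proc σ i) ∧
        IsCover (proc σ i) C' ∧ C'.card = tau (proc σ i)) ∧
    (∀ n : ℕ, Even n → 2 ≤ n → prGood n = 0) ∧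
    ¬ Tendsto (fun k : ℕ => prGood (2 * k)) atTop (𝓝 1) := by
  have h0 : ∀ n : ℕ, Even n → 2 ≤ n → prGood n = 0 := by
    intro n hn hn2
    have : {σ : Ordering n | Good σ} = ∅ := by
      ext σ
      simp only [Set.mem_ofPred_eq, Set.mem_empty_iff_false, iff_false]
      exact not_good hn hn2 σ
    unfold prGood
    rw [this]
    simp
  refine ⟨?_, h0, ?_⟩
  · intro n hn hn2 σ
    obtain ⟨i, hi, hT⟩ := exists_T hn σ
    exact ⟨i, hi, hT, two_covers hn2 σ hT⟩
  · intro h
    have h1 : Tendsto (fun k : ℕ => prGood (2 * k)) atTop (𝓝 0) := by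
      refine tendsto_const_nhds.congr' ?_
      filter_upwards [eventually_ge_atTop 1] with k hk
      exact (h0 (2 * k) (even_two_mul k) (by omega)).symm
    exact zero_ne_one (tendsto_nhds_unique h1 h)

end Pool.Agent.Results.MP_f77465_pr.NeverUnique
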